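import Pool.Agent.MVS.Stmts

/-!
# GBS: the Gauss-Bonnet theorem for all metrics on `S^4` and sharp volume bounds (MP_33f2b9_gt)

Internal definitions.  Metrics on `S^4` are cylinder metrics `G` on `ℝ^5 \ {0}` (`IsCyl` of
`Pool/Agent/Helper36_RF/Geo.lean`, homogeneous of degree `-2`, with parallel radial field).

The Gauss-Bonnet density `eul G` is a full contraction of two curvature matrices with two
Levi-Civita symbols; it is homogeneous of degree `-5`, its integral over the slab `1 < |x| < e` is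
`256 π²` for every cylinder metric (`96 * 8π²/3`), by transgression along a path of metrics.
-/

noncomputable section

open scoped ContDiff Topology RealInnerProductSpace
open Set MeasureTheory Matrix

namespace Pool.Agent.GBS

open Pool.Agent.RF Pool.Agent.MVS

/-- real `5 × 5` matrices -/
abbrev M5 : Type := Matrix (Fin 5) (Fin 5) ℝ

/-- the coordinates of a vector of `E5` -/
def cf (x : E5) : Fin 5 → ℝ := fun i => x i

/-- the determinant with rows `u, e_i, e_j, e_k, e_l` -/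
def eps (u : Fin 5 → ℝ) (i j k l : Fin 5) : ℝ :=
  (Matrix.of ![u, Pi.single i 1, Pi.single j 1, Pi.single k 1, Pi.single l 1]).det

/-- full contraction of a tensor with `eps u` -/
def ctr (u : Fin 5 → ℝ) (T : Fin 5 → Fin 5 → Fin 5 → Fin 5 → ℝ) : ℝ :=
  ∑ i, ∑ j, ∑ k, ∑ l, eps u i j k l * T i j k l

/-- the (polarised) Pfaffian `∑ ε_{uabcd} S_ab T_cd` of the skew parts of two matrices -/
def Pf (u : Fin 5 → ℝ) (S T : M5) : ℝ := ctr u fun a b c d => S a b * T c d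

/-! ### Cylinder metrics -/

/-- the matrix of `w ↦ chris G x (e_i) w` -/
def Gam (G : E5 → Bil E5) (x : E5) (i : Fin 5) : M5 :=
  Matrix.of fun a b => (chris G x (eb i) (eb b)) a

/-- the matrix of `w ↦ R(e_i, e_j) w` -/
def Rm (G : E5 → Bil E5) (x : E5) (i j : Fin 5) : M5 :=
  Matrix.of fun a b => (riem G x (eb i) (eb j) (eb b)) a

/-- `R(e_i, e_j)` with the second index raised; a skew matrix -/
def Sm (G : E5 → Bil E5) (x : E5) (i j : Fin 5) : M5 := Rm G x i j * (gm (G x))⁻¹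

/-- the Gauss-Bonnet density, homogeneous of degree `-5`; it is `96 |x|⁻⁵` for the round metric -/
def eul (G : E5 → Bil E5) (x : E5) : ℝ :=
  (‖x‖ ^ 2)⁻¹ * (sd (G x) *
    ctr (cf x) fun i j k l => Pf (cf x) (Sm G x i j) (Sm G x k l))

/-! ### Functions of time and space -/

/-- time and space -/
abbrev Z : Type := ℝ × E5

/-- the time direction -/
def vt : Z := (1, 0)

/-- the space directions -/
def vx (i : Fin 5) : Z := (0, eb i)

/-- the domain `x ≠ 0` -/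
def UZ : Set Z := univ ×ˢ Om (Fin 5)

/-- directional derivative of a scalar function -/
def dr (v : Z) (f : Z → ℝ) (z : Z) : ℝ := fderiv ℝ f z v

/-- entrywise directional derivative of a matrix valued function -/
def dM (v : Z) (F : Z → M5) (z : Z) : M5 := Matrix.of fun a b => dr v (fun y => F y a b) z

/-- smooth matrix valued functions -/
def SmM (F : Z → M5) : Prop := ∀ a b, ContDiffOn ℝ ∞ (fun z => F z a b) UZ

/-- curvature matrices of the connection `Γ` (space directions) -/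
def RZ (Γ : Fin 5 → Z → M5) (i j : Fin 5) (z : Z) : M5 :=
  dM (vx i) (Γ j) z - dM (vx j) (Γ i) z + (Γ i z * Γ j z - Γ j z * Γ i z)

/-- curvature matrices with raised index (`h` is the inverse metric) -/
def SZ (Γ : Fin 5 → Z → M5) (h : Z → M5) (i j : Fin 5) (z : Z) : M5 := RZ Γ i j z * h z

/-- Data of a family of metrics `g` with inverse `h`, metric connection `Γ`, density `w`. -/
structure TData (g h : Z → M5) (Γ : Fin 5 → Z → M5) (w : Z → ℝ) : Prop where
  sg : SmM g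
  sh : SmM h
  sΓ : ∀ i, SmM (Γ i)
  sw : ContDiffOn ℝ ∞ w UZ
  sym : ∀ z ∈ UZ, (g z)ᵀ = g z
  inv : ∀ z ∈ UZ, g z * h z = 1
  comp : ∀ z ∈ UZ, ∀ i, dM (vx i) g z = g z * Γ i z + (Γ i z)ᵀ * g z
  rad : ∀ z ∈ UZ, ∀ i, Γ i z *ᵥ cf z.2 = - Pi.single i 1
  tim : ∀ z ∈ UZ, dM vt g z *ᵥ cf z.2 = 0
  dw : ∀ z ∈ UZ, ∀ v, dr v w z = w z / 2 * (h z * dM v g z).trace
  skew : ∀ z ∈ UZ, ∀ i j, (SZ Γ h i j z)ᵀ = - SZ Γ h i j z

/-- the Euler density without the radial factor -/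
def EZ (Γ : Fin 5 → Z → M5) (h : Z → M5) (w : Z → ℝ) (z : Z) : ℝ :=
  w z * ctr (cf z.2) fun i j k l => Pf (cf z.2) (SZ Γ h i j z) (SZ Γ h k l z)

/-- the transgression vector field -/
def BZ (Γ : Fin 5 → Z → M5) (h : Z → M5) (w : Z → ℝ) (i : Fin 5) (z : Z) : ℝ :=
  w z * ∑ j, ∑ k, ∑ l, eps (cf z.2) i j k l *
    Pf (cf z.2) (dM vt (Γ j) z * h z) (SZ Γ h k l z)

/-- half of the time derivative of `EZ` -/
def QZ (Γ : Fin 5 → Z → M5) (h : Z → M5) (w : Z → ℝ) (z : Z) : ℝ :=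
  w z * ctr (cf z.2) fun i j k l =>
    Pf (cf z.2) (dM vt (RZ Γ i j) z * h z) (SZ Γ h k l z)

/-- a smooth family of cylinder metrics -/
structure Fam (H : ℝ → E5 → Bil E5) : Prop where
  cyl : ∀ t, IsCyl (H t)
  smooth : ContDiffOn ℝ ∞ (fun z : Z => H z.1 z.2) UZ

/-! ### Orthonormal frames and algebraic curvature tensors in dimension four -/

/-- tangential `G`-orthonormal frame -/
def IsAF (G : E5 → Bil E5) (x : E5) (F : Fin 4 → E5) : Prop :=
  (∀ a, ⟪x, F a⟫ = (0 : ℝ)) ∧ ∀ a b, G x (F a) (F b) = if a = b then 1 else 0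

/-- curvature components in a frame -/
def Kf (G : E5 → Bil E5) (x : E5) (F : Fin 4 → E5) (a b c d : Fin 4) : ℝ :=
  G x (riem G x (F a) (F b) (F c)) (F d)

/-- algebraic curvature tensors; the sectional curvature of `e_a, e_b` is `K a b b a` -/
structure IsACT (K : Fin 4 → Fin 4 → Fin 4 → Fin 4 → ℝ) : Prop where
  anti : ∀ a b c d, K a b c d = - K b a c d
  anti' : ∀ a b c d, K a b c d = - K a b d c
  pair : ∀ a b c d, K a b c d = K c d a b
  bianchi : ∀ a b c d, K a b c d + K b c a d + K c a b d = 0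

/-- `R(u,v,v,u)` -/
def sec4 (K : Fin 4 → Fin 4 → Fin 4 → Fin 4 → ℝ) (u v : Fin 4 → ℝ) : ℝ :=
  ∑ a, ∑ b, ∑ c, ∑ d, K a b c d * u a * v b * v c * u d

/-- squared area -/
def ar4 (u v : Fin 4 → ℝ) : ℝ := (∑ a, u a ^ 2) * (∑ a, v a ^ 2) - (∑ a, u a * v a) ^ 2

/-- the pairs `(0,1), (0,2), (0,3)` -/
def pr (p : Fin 3) : Fin 4 × Fin 4 := ![(0, 1), (0, 2), (0, 3)] p

/-- the dual pairs `(2,3), (3,1), (1,2)` -/
def ps (p : Fin 3) : Fin 4 × Fin 4 := ![(2, 3), (3, 1), (1, 2)] p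

/-- the component `K(P,Q)` for two pairs -/
def kk (K : Fin 4 → Fin 4 → Fin 4 → Fin 4 → ℝ) (P Q : Fin 4 × Fin 4) : ℝ := K P.1 P.2 Q.1 Q.2

/-- the Gauss-Bonnet integrand `16 (|A|² + |D|² - 2|B|²)`; `96` for curvature one -/
def E4 (K : Fin 4 → Fin 4 → Fin 4 → Fin 4 → ℝ) : ℝ :=
  32 * ∑ p, ∑ q, (kk K (pr p) (pr q) * kk K (ps p) (ps q) + kk K (pr p) (ps q) * kk K (ps p) (pr q))

/-- the Pontryagin density `|A|² - |D|² = |W⁺|² - |W⁻|²` -/
def pont (K : Fin 4 → Fin 4 → Fin 4 → Fin 4 → ℝ) : ℝ :=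
  ∑ a, ∑ b, (K 0 1 a b * K 2 3 a b - K 0 2 a b * K 1 3 a b + K 0 3 a b * K 1 2 a b)

/-- `scal / 12` -/
def sg (K : Fin 4 → Fin 4 → Fin 4 → Fin 4 → ℝ) : ℝ := (∑ a, ∑ b, K a b b a) / 12

end Pool.Agent.GBS
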