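import Pool.Agent.GBS.Defs

/-!
# GBS: statements, first half: the Gauss-Bonnet theorem by transgression (MP_33f2b9_gt)

THEOREM (CGI, CGB).  `∫_slab eul G = 256 π²` for every cylinder metric `G` on `ℝ^5 \ {0}` (that is, for
every metric on `S^4`).

PROOF IN SHORT.  For a smooth family `H t` of cylinder metrics let `g, h = g⁻¹, Γ_i, w = √det g` be the
matrices of the metric and the connection and the density, as functions of `z = (t,x)`; they
satisfy `TData`.  With `S_ij = R_ij h`, `X = x`,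
`E = w ∑ ε(X)_ijkl Pf X S_ij S_kl`, `β_i = w ∑ ε(X)_ijkl Pf X (∂_tΓ_j h) S_kl`,
`Q = w ∑ ε(X)_ijkl Pf X (∂_tR_ij h) S_kl` one has
`∑_i ∂_i β_i = Q/2` (TRD) and `∂_t E = 2 Q` (TRT).  `β` is tangential (`∑ X_i β_i = 0`), so the integral of
`|x|⁻² ∑ ∂_i β_i` over the slab vanishes (DIV, rotation invariance of the slab).  Hence the integral
of `eul (H t) = |x|⁻² E` does not depend on `t`; join two metrics by `cos² t G₀ + sin² t G₁`.
All identities have been checked numerically.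

RULES.  Every `...Statement : Prop` below is a row of the table `gbs` (module, seat, status, at,
uses).  A row may take as hypotheses the statements listed in `uses`.  Import
`Pool.Agent.GBS.Stmts`, deliver `Pool/Agent/HelperNN_GBS/XXX.lean`, namespace
`Pool.Agent.GBS.HNN`, theorem `xxx : XxxStatement` (or `theorem xxx (epi : EpiStatement) ... `).
The library: `Pool.Agent.RF.chrStatement` (Helper36_RF/Chr.lean with `IsMetricOn.chris_symm`,
`chris_spec`, `contDiffOn_chris`, ...), `sym` (Helper9_RF/Sym.lean), `cyl` (Helper5_RF/Cyl.lean),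
bilinearity of `chris`/`riem` (Helper5_RF/Common.lean), `sdf` (Helper14_MVS/SDF.lean: `gm_apply`,
`B_expand`, `gm_posDef`, ...), time dependent metrics Helper58_RF/Evo.lean, Mix.lean (same ideas).
-/

noncomputable section

open scoped ContDiff Topology RealInnerProductSpace
open Set MeasureTheory Matrix

namespace Pool.Agent.GBS

open Pool.Agent.RF Pool.Agent.MVS

/-! ## Part A: algebra -/

/-- EPI.  Infinitesimal invariance of the determinant.  With `V` the matrix with rows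
`u, e_i, e_j, e_k, e_l` and `W = V Mᵀ` (rows `M u, M e_i, ...`; `M e_i = ∑_p M p i e_p`):
`∑_r det (V.updateRow r (W r)) = tr (Wᵀ-contraction with the adjugate) = tr (M Vᵀ adj Vᵀ) =
tr M det V` (`Matrix.cramer_transpose_apply`, `cramer_eq_adjugate_mulVec`, `mul_adjugate`).  The second
part follows from the first by contraction with `S_ij T_kl` (renaming summation indices). -/
def EpiStatement : Prop :=
  ∀ (M : M5) (u : Fin 5 → ℝ),
    (∀ i j k l, eps (M *ᵥ u) i j k l + (∑ p, M p i * eps u p j k l) + (∑ p, M p j * eps u i p k l)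
      + (∑ p, M p k * eps u i j p l) + (∑ p, M p l * eps u i j k p) = M.trace * eps u i j k l) ∧
    (∀ S T : M5, Pf (M *ᵥ u) S T + Pf u (M * S + S * Mᵀ) T + Pf u S (M * T + T * Mᵀ) =
      M.trace * Pf u S T)

/-- EPS.  Symmetries of `eps`, `Pf`, `ctr` (determinant: linear in the first row, changes sign when
two rows are exchanged, zero for equal rows; the rest is renaming of summation indices).  In the
last but one item the cyclic permutation `(i,k,l) ↦ (k,l,i)` is even; in the last item the exchange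
of the pairs `(i,j)`, `(k,l)` is even. -/
def EpsStatement : Prop :=
  (∀ u v i j k l, eps (u + v) i j k l = eps u i j k l + eps v i j k l) ∧
  (∀ (c : ℝ) u i j k l, eps (c • u) i j k l = c * eps u i j k l) ∧
  (∀ u i j k l, eps u j i k l = - eps u i j k l) ∧
  (∀ u i j k l, eps u i k j l = - eps u i j k l) ∧
  (∀ u i j k l, eps u i j l k = - eps u i j k l) ∧
  (∀ i j k l, eps (Pi.single i 1) i j k l = 0) ∧
  (∀ u j k l, ∑ i, u i * eps u i j k l = 0) ∧
  (∀ u v S T, Pf (u + v) S T = Pf u S T + Pf v S T) ∧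
  (∀ (c : ℝ) u S T, Pf (c • u) S T = c * Pf u S T) ∧
  (∀ u S S' T, Pf u (S + S') T = Pf u S T + Pf u S' T) ∧
  (∀ (c : ℝ) u S T, Pf u (c • S) T = c * Pf u S T) ∧
  (∀ u S T, Pf u T S = Pf u S T) ∧
  (∀ u S T, Pf u Sᵀ T = - Pf u S T) ∧
  (∀ u T T', ctr u (fun i j k l => T i j k l + T' i j k l) = ctr u T + ctr u T') ∧
  (∀ (c : ℝ) u T, ctr u (fun i j k l => c * T i j k l) = c * ctr u T) ∧
  (∀ u T, ctr u (fun i j k l => T j i k l) = - ctr u T) ∧
  (∀ u T, (∀ i j k l, T i j k l + T k j l i + T l j i k = 0) → ctr u T = 0) ∧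
  (∀ u T, ctr u (fun i j k l => T k l i j) = ctr u T)

/-! ## Part B: calculus in `Z = ℝ × E5` -/

/-- CAL.  Calculus of `dr`, `dM` for functions which are smooth on the open set `UZ`.  `dM` is the
entrywise derivative, so everything reduces to scalar functions; `dr v (dr v' f) = dr v' (dr v f)` is
the symmetry of the second derivative (`ContDiffAt.isSymmSndFDerivAt` or
`second_derivative_symmetric`); `dr v (fun z => eps (cf z.2) i j k l)`: `eps` is linear in `u`. -/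
def CalStatement : Prop :=
  IsOpen UZ ∧
  (∀ f, ContDiffOn ℝ ∞ f UZ → ∀ v, ContDiffOn ℝ ∞ (dr v f) UZ) ∧
  (∀ F, SmM F → ∀ v, SmM (dM v F)) ∧
  (∀ F G, SmM F → SmM G → SmM (fun z => F z + G z) ∧ SmM (fun z => F z - G z) ∧
    SmM (fun z => F z * G z) ∧ SmM (fun z => (F z)ᵀ)) ∧
  (∀ f, ContDiffOn ℝ ∞ f UZ → ∀ z ∈ UZ, ∀ v v', dr v (dr v' f) z = dr v' (dr v f) z) ∧
  (∀ F, SmM F → ∀ z ∈ UZ, ∀ v v', dM v (dM v' F) z = dM v' (dM v F) z) ∧
  (∀ F G, SmM F → SmM G → ∀ z ∈ UZ, ∀ v,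
    dM v (fun z => F z + G z) z = dM v F z + dM v G z ∧
    dM v (fun z => F z - G z) z = dM v F z - dM v G z ∧
    dM v (fun z => F z * G z) z = dM v F z * G z + F z * dM v G z) ∧
  (∀ f g, ContDiffOn ℝ ∞ f UZ → ContDiffOn ℝ ∞ g UZ → ∀ z ∈ UZ, ∀ v,
    dr v (fun z => f z * g z) z = dr v f z * g z + f z * dr v g z) ∧
  (∀ f : Fin 5 → Z → ℝ, (∀ i, ContDiffOn ℝ ∞ (f i) UZ) → ∀ z ∈ UZ, ∀ v,
    dr v (fun z => ∑ i, f i z) z = ∑ i, dr v (f i) z) ∧
  (∀ i j k l, ContDiffOn ℝ ∞ (fun z : Z => eps (cf z.2) i j k l) UZ) ∧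
  (∀ i j k l, ∀ z ∈ UZ, ∀ v : Z,
    dr v (fun z : Z => eps (cf z.2) i j k l) z = eps (cf v.2) i j k l) ∧
  (∀ S T, SmM S → SmM T → ContDiffOn ℝ ∞ (fun z : Z => Pf (cf z.2) (S z) (T z)) UZ ∧
    ∀ z ∈ UZ, ∀ v : Z, dr v (fun z : Z => Pf (cf z.2) (S z) (T z)) z =
      Pf (cf v.2) (S z) (T z) + Pf (cf z.2) (dM v S z) (T z) + Pf (cf z.2) (S z) (dM v T z)) ∧
  (∀ f, ContDiffOn ℝ ∞ f UZ → ∀ t, ContDiffOn ℝ ∞ (fun x => f (t, x)) (Om (Fin 5)) ∧
    ∀ x ∈ Om (Fin 5), ∀ v : E5, fderiv ℝ (fun y => f (t, y)) x v = dr (0, v) f (t, x))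

/-- SDD.  Derivative of the square root of the determinant of a matrix valued function with
positive determinant (Jacobi's formula `(det g)' = det g tr (g⁻¹ g')`: e.g. `det g` is a polynomial in
the entries; write `det` through `Matrix.det_apply` and derive, compare with the adjugate by
`Matrix.adjugate_apply`/`updateRow`, or use `derivative_det_one_add_X_smul`/`det_one_add_smul`). -/
def SddStatement : Prop :=
  ∀ g : Z → M5, SmM g → (∀ z ∈ UZ, 0 < (g z).det) →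
    SmM (fun z => (g z)⁻¹) ∧ ContDiffOn ℝ ∞ (fun z => Real.sqrt (g z).det) UZ ∧
    ∀ z ∈ UZ, ∀ v, dr v (fun z => Real.sqrt (g z).det) z =
      Real.sqrt (g z).det / 2 * ((g z)⁻¹ * dM v g z).trace

/-- TRD.  The divergence of the transgression field.  Notation `D_i = dr (vx i)` etc., `X = cf z.2`
(`D_i X = e_i`, `D_t X = 0`), `C_j = D_tΓ_j h`, `∇_i A = D_i A + Γ_i A + A Γ_iᵀ`.
`D_i w = w tr Γ_i` (`dw`, `comp`, `h g = 1`).  `∇_i h = 0`: `D_i h = - Γ_i h - h Γ_iᵀ` (differentiate `g h = 1`).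
EPI with `M = Γ_i`, `M X = - e_i`: `tr Γ_i Pf X C S + Pf e_i C S = Pf X (Γ_i C + C Γ_iᵀ) S + Pf X C (Γ_i S + S Γ_iᵀ)`;
and `ε(e_i)_ijkl = 0`.  So `∑ D_iβ_i = w ∑ ε(X)_ijkl (Pf X (∇_iC_j) S_kl + Pf X C_j (∇_iS_kl))`.
`∇_iS_kl = (D_iR_kl + Γ_iR_kl - R_klΓ_i) h`, and the cyclic sum over `(i,k,l)` of the bracket vanishes (second
Bianchi identity, from the definition of `R` and the symmetry of second derivatives), so the second
sum is zero (EPS).  `∇_iC_j - ∇_jC_i = (D_tR_ij) h` (definition of `R`, mixed derivatives), so by antisymmetry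
the first sum is half of `Q`. -/
def TrdStatement : Prop :=
  ∀ (g h : Z → M5) (Γ : Fin 5 → Z → M5) (w : Z → ℝ), TData g h Γ w → ∀ z ∈ UZ,
    ∑ i, dr (vx i) (BZ Γ h w i) z = QZ Γ h w z / 2

/-- TRT.  The time derivative.  `D_t X = 0`; `D_t w = (w/2) tr (h g')`, `g' = D_t g`; `D_t h = - h g' h`, so
`D_t S_ij = (D_tR_ij) h - S_ij g' h`.  EPI with `M = ½ h g'` (`M X = 0` by `tim`, `Mᵀ = ½ g' h` as `g'`, `h` are
symmetric) and the skewness of `S`: `M S = - (S Mᵀ)ᵀ`, so `Pf X (M S) T = Pf X (S Mᵀ) T` and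
`Pf X (S g' h) T + Pf X S (T g' h) = ½ tr (h g') Pf X S T`: these terms cancel with the derivative of `w`.
The remaining two terms are equal by the exchange symmetry of `ctr` and `Pf` (EPS). -/
def TrtStatement : Prop :=
  ∀ (g h : Z → M5) (Γ : Fin 5 → Z → M5) (w : Z → ℝ), TData g h Γ w → ∀ z ∈ UZ,
    dr vt (EZ Γ h w) z = 2 * QZ Γ h w z

/-- SMO.  Smoothness of `RZ`, `SZ`, `EZ`, `BZ` (from CAL), and tangentiality of `BZ`. -/
def SmoStatement : Prop :=
  ∀ (g h : Z → M5) (Γ : Fin 5 → Z → M5) (w : Z → ℝ), TData g h Γ w →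
    (∀ i j, SmM (RZ Γ i j)) ∧ (∀ i j, SmM (SZ Γ h i j)) ∧ ContDiffOn ℝ ∞ (EZ Γ h w) UZ ∧
    (∀ i, ContDiffOn ℝ ∞ (BZ Γ h w i) UZ) ∧
    (∀ z ∈ UZ, ∑ i, z.2 i * BZ Γ h w i z = 0)

/-! ## Part C: cylinder metrics -/

/-- CMP.  Matrix form of the facts on the Levi-Civita connection of a cylinder metric: symmetry,
`sdf` (positive determinant), metric compatibility (`compat` in Helper9_RF/Sym.lean or two instances
of `chris_spec`), `chris G x v x = - v` (`cyl`, plus symmetry of `chris`), the definition of `riem`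
(`riem G x u v w = D_u(chris v w) - D_v(chris u w) + ...`; expand vectors in the basis `eb`), skewness
`G(R(u,v)w,z) = - G(R(u,v)z,w)` (`sym`), in matrices `g R + Rᵀ g = 0`, and `IsCyl.radial`. -/
def CmpStatement : Prop :=
  ∀ G : E5 → Bil E5, IsCyl G → ∀ x ∈ Om (Fin 5),
    (gm (G x))ᵀ = gm (G x) ∧ 0 < (gm (G x)).det ∧
    (∀ i a b, fderiv ℝ (fun y => gm (G y) a b) x (eb i) =
      (gm (G x) * Gam G x i + (Gam G x i)ᵀ * gm (G x)) a b) ∧
    (∀ i, Gam G x i *ᵥ cf x = - Pi.single i 1) ∧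
    (∀ i j a b, Rm G x i j a b = fderiv ℝ (fun y => Gam G y j a b) x (eb i)
      - fderiv ℝ (fun y => Gam G y i a b) x (eb j)
      + (Gam G x i * Gam G x j - Gam G x j * Gam G x i) a b) ∧
    (∀ i j, (Sm G x i j)ᵀ = - Sm G x i j) ∧
    gm (G x) *ᵥ cf x = (‖x‖ ^ 2)⁻¹ • cf x

/-- FSM.  Joint smoothness.  `gm (H t x) a b = H t x (eb a) (eb b)`.  For `Gam`: in matrices
`chris G x e_i e_b` is `h` applied to the vector `½ (∂_i g_bc + ∂_b g_ic - ∂_c g_ib)_c`, and the spatial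
derivatives of `H t` at `x` are `dr (0,e_i)` of the jointly smooth function; `h` is smooth by SDD. -/
def FsmStatement : Prop :=
  ∀ H : ℝ → E5 → Bil E5, Fam H →
    SmM (fun z => gm (H z.1 z.2)) ∧ ∀ i, SmM (fun z => Gam (H z.1) z.2 i)

/-- FAM.  A family of cylinder metrics gives `TData`; `RZ` is `Rm`.  From CMP, FSM, SDD, CAL: the
directional derivatives `dM (vx i)` are derivatives of `fun y => ... (t,y)` (last item of CAL); `tim`:
`gm (H t x) *ᵥ cf x = |x|⁻² cf x` does not depend on `t`; `w = sd (H t x) = √det gm`. -/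
def FamStatement : Prop :=
  ∀ H : ℝ → E5 → Bil E5, Fam H →
    TData (fun z => gm (H z.1 z.2)) (fun z => (gm (H z.1 z.2))⁻¹)
      (fun i z => Gam (H z.1) z.2 i) (fun z => sd (H z.1 z.2)) ∧
    (∀ z ∈ UZ, ∀ i j, RZ (fun i z => Gam (H z.1) z.2 i) i j z = Rm (H z.1) z.2 i j) ∧
    (∀ z ∈ UZ, eul (H z.1) z.2 = (‖z.2‖ ^ 2)⁻¹ * EZ (fun i z => Gam (H z.1) z.2 i)
      (fun z => (gm (H z.1 z.2))⁻¹) (fun z => sd (H z.1 z.2)) z)

/-- CNV.  `H t = cos² t • G₀ + sin² t • G₁` is a smooth family of cylinder metrics. -/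
def CnvStatement : Prop :=
  ∀ G₀ G₁ : E5 → Bil E5, IsCyl G₀ → IsCyl G₁ →
    ∃ H : ℝ → E5 → Bil E5, Fam H ∧ H 0 = G₀ ∧ H (Real.pi / 2) = G₁

/-! ## Part D: integration -/

/-- DIV.  Stokes on the slab for tangential fields.  With `Ω_ij = (b_i x_j - b_j x_i)/|x|²` one has
`∑_i ∂_i b_i = ∑_ij x_j ∂_i Ω_ij = ½ ∑_ij (x_j ∂_i - x_i ∂_j) Ω_ij` (as `∑_j x_j Ω_ij = b_i`, `Ω_ii = 0`), and
`∫_slab (x_j ∂_i f - x_i ∂_j f)/|x|² = 0` for every `f` which is `C¹` on `Om`, by rotation invariance of the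
slab: `rot_zero` in Helper19_MVS/GBI.lean, stated there for `Fin 3` (the proof is dimension free
except `sq_sum`).  Integrability: continuous on the closed annulus. -/
def DivStatement : Prop :=
  ∀ b : Fin 5 → E5 → ℝ, (∀ i, ContDiffOn ℝ ∞ (b i) (Om (Fin 5))) →
    (∀ x ∈ Om (Fin 5), ∑ i, x i * b i x = 0) →
    IntegrableOn (fun x => (‖x‖ ^ 2)⁻¹ * ∑ i, fderiv ℝ (b i) x (eb i)) (slab (Fin 5)) ∧
    ∫ x in slab (Fin 5), (‖x‖ ^ 2)⁻¹ * ∑ i, fderiv ℝ (b i) x (eb i) = 0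

/-- TIM.  Differentiation under the integral sign over the slab (bounds from compactness of
`[t-1,t+1] × closed annulus`); if the derivative vanishes for all `t`, the integral is constant. -/
def TimStatement : Prop :=
  ∀ F : Z → ℝ, ContDiffOn ℝ ∞ F UZ →
    (∀ t, IntegrableOn (fun x => (‖x‖ ^ 2)⁻¹ * F (t, x)) (slab (Fin 5))) ∧
    ((∀ t, ∫ x in slab (Fin 5), (‖x‖ ^ 2)⁻¹ * dr vt F (t, x) = 0) →
      ∀ t s, ∫ x in slab (Fin 5), (‖x‖ ^ 2)⁻¹ * F (t, x) =
        ∫ x in slab (Fin 5), (‖x‖ ^ 2)⁻¹ * F (s, x))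

/-- CGI.  The Gauss-Bonnet integral does not depend on the metric: TIM with `F = EZ`, where
`dr vt EZ = 2 QZ = 4 ∑_i dr (vx i) (BZ i)` (TRT, TRD), DIV with `b_i x = BZ i (t,x)` (SMO, last item of
CAL), FAM, CNV. -/
def CgiStatement : Prop :=
  ∀ G₀ G₁ : E5 → Bil E5, IsCyl G₀ → IsCyl G₁ →
    IntegrableOn (fun x => eul G₀ x) (slab (Fin 5)) ∧
    ∫ x in slab (Fin 5), eul G₀ x = ∫ x in slab (Fin 5), eul G₁ x

end Pool.Agent.GBS
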