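import Pool.Agent.GBS.Defs
import Pool.Agent.Helper38_MVS.RND

/-!
# GBS, half B: pointwise evaluation, official form, bridges, final statement (MP_33f2b9_gt)

THEOREM.  Every smooth metric on `S^4` with `|K| ≤ 1` satisfies `vol g + (1/12) ∫ |pont| ≥ 8π²/3`,
where `pont = |W+|² - |W-|²` is the first Pontryagin density; and the other items of `FinStmt`.

PROOF IN SHORT.  Half A: `∫_{slab} eul G` is the same for all cylinder metrics `G` (CGI).  Half B: in a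
`G`-orthonormal frame `F` of `x^⊥` one has `eul G x = sd (G x) * E4 (Kf G x F)` (FRA) and
`|pnt G x| = 8 sd (G x) |pont (Kf G x F)|` (PFR), the round value is `256 π²` (RDE), and the algebra of
curvature tensors (`alg1`, `alg2`, `alg3` of Helper92_GBS/ALG.lean, proved) gives
`E4 K ≤ 96 + 8 |pont K|` for `|K| ≤ 1` etc.  So `256 π² ≤ 96 ∫_{slab} sd G + ∫_{slab} |pnt G|`, i.e.
`8π²/3 ≤ vol + (1/12) ∫ |pont|`.

RULES.  Every `...Stmt : Prop` from `EpdStmt` on is a row of the table `gbs`.  Import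
`Pool.Agent.GBS.StmtsB`, deliver `Pool/Agent/HelperNN_GBS/XXX.lean`, namespace `Pool.Agent.GBS.HNN`,
theorem `xxx : XxxStmt` (hypotheses: the statements listed in `uses`).

Names which may be used (all proved): `Pool.Agent.RF.chrStatement`, `Pool.Agent.RF.sym`
(`SymStatement`, Helper9_RF/Sym: also `H9.metric_skew`, `H9.chrFacts`), `nat`, `diffeo`, `cyl`, `slice`,
`H5.cyl_riem_hom`, `H5.riem_add1`, `H5.riem_smul1`, ... (Helper5_RF), `Pool.Agent.RF.H58.exists_frame`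
(Helper58_RF/Frame), `Pool.Agent.MVS.H26.{br2, sec_tan, riemV_congr, tangent_of}`
(Helper26_MVS/BR2), `Pool.Agent.MVS.H23.{density_eq, sd_smul, radial_int, br3}` (Helper23_MVS/BR3),
`br1` (Helper94_MVS/BR1), `par` (Helper60_MVS/PAR), `rnd`, `rG`, `rG_cyl`, `rg`, `sec_eq`, `rmet`
(Helper38_MVS/RND), `Pool.Agent.RF.H38.round_riem` (Helper38_RF/Round), `sdf` (Helper14_MVS/SDF).
-/

noncomputable section

open scoped ContDiff Topology RealInnerProductSpace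
open Set MeasureTheory Matrix

namespace Pool.Agent.MinVolSphere

open Pool.Agent.SecondKind

/-! ## Official definitions -/

/-- all sectional curvatures are at least `k`: `k |a ∧ b|² ≤ R(a,b,b,a)` in every smooth local
parametrization -/
def SecGe {n : ℕ} (k : ℝ) (g : Form n) : Prop :=
  ∀ U ψ, IsParam U ψ → ∀ y ∈ U, ∀ a b : Fin n → ℝ,
    k * area2 (comp g ψ) y a b ≤ riemV (comp g ψ) y a b b a

/-- the scalar curvature is at least `c`: `∑_{i,j} R(e_i,e_j,e_j,e_i) ≥ c` for all orthonormal frames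
(the sum is `12` for the round metric of `S^4`) -/
def ScalGe {n : ℕ} (c : ℝ) (g : Form n) : Prop :=
  ∀ U ψ, IsParam U ψ → ∀ y ∈ U, ∀ e, IsFrame (comp g ψ) y e →
    c ≤ ∑ i, ∑ j, riemV (comp g ψ) y (e i) (e j) (e j) (e i)

/-- The first Pontryagin density in the frame `e`,
`∑_{a,b} (R_{01ab} R_{23ab} - R_{02ab} R_{13ab} + R_{03ab} R_{12ab})`; for an orthonormal frame it is
`± (|W+|² - |W-|²)` and `1/(4π²)` times its integral is the first Pontryagin number. -/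
def pontF (h : Coord 4) (y : Fin 4 → ℝ) (e : Fin 4 → Fin 4 → ℝ) : ℝ :=
  ∑ a, ∑ b, (riemV h y (e 0) (e 1) (e a) (e b) * riemV h y (e 2) (e 3) (e a) (e b)
    - riemV h y (e 0) (e 2) (e a) (e b) * riemV h y (e 1) (e 3) (e a) (e b)
    + riemV h y (e 0) (e 3) (e a) (e b) * riemV h y (e 1) (e 2) (e a) (e b))

/-- `P` is the absolute value of the first Pontryagin density of `g`, a function on `S^4` -/
def IsPont (g : Form 4) (P : (Fin 5 → ℝ) → ℝ) : Prop :=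
  ∀ U ψ, IsParam U ψ → ∀ y ∈ U, ∀ e, IsFrame (comp g ψ) y e → P (ψ y) = |pontF (comp g ψ) y e|

/-- the integral of a function on `S^4` with respect to the Riemannian volume of `g` -/
def integ (g : Form 4) (P : (Fin 5 → ℝ) → ℝ) : ℝ :=
  ∫ x : Metric.sphere (0 : EuclideanSpace ℝ (Fin 5)) 1,
    P (fun i => (x : EuclideanSpace ℝ (Fin 5)) i) *
      density g (fun i => (x : EuclideanSpace ℝ (Fin 5)) i)
      ∂((MeasureTheory.volume : MeasureTheory.Measure (EuclideanSpace ℝ (Fin 5))).toSphere)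

end Pool.Agent.MinVolSphere

namespace Pool.Agent.GBS

open Pool.Agent.RF Pool.Agent.MVS

/-! ## Internal definitions -/

/-- `|x|^{-2} ∑ eps x i j k l tr (R_ij R_kl)`, the first Pontryagin form contracted with `x` -/
def pnt (G : E5 → Bil E5) (x : E5) : ℝ :=
  (‖x‖ ^ 2)⁻¹ * ctr (cf x) fun i j k l => (Rm G x i j * Rm G x k l).trace

/-- the frame `x, F 0, F 1, F 2, F 3` -/
def ef (x : E5) (F : Fin 4 → E5) : Fin 5 → E5 := Fin.cons x F

/-- the frame matrix: columns `x, F 0, F 1, F 2, F 3` -/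
def Em (x : E5) (F : Fin 4 → E5) : M5 := Matrix.of fun i j => (ef x F j) i

/-- the components of the curvature in the frame `ef x F`; zero if an index is `0` -/
def Kh (G : E5 → Bil E5) (x : E5) (F : Fin 4 → E5) (m n a b : Fin 5) : ℝ :=
  G x (riem G x (ef x F m) (ef x F n) (ef x F a)) (ef x F b)

/-- the sectional curvatures lie in `[k, l]` -/
def SecIn (k l : ℝ) (K : Fin 4 → Fin 4 → Fin 4 → Fin 4 → ℝ) : Prop :=
  ∀ u v, k * ar4 u v ≤ sec4 K u v ∧ sec4 K u v ≤ l * ar4 u v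

/-- the sectional curvatures are at most `l` -/
def SecUp (l : ℝ) (K : Fin 4 → Fin 4 → Fin 4 → Fin 4 → ℝ) : Prop :=
  ∀ u v, sec4 K u v ≤ l * ar4 u v

/-! ## Part 1: multilinear algebra of `eps` -/

/-- EPD.  `∑ eps u i j k l a_i b_j c_k d_l = det (u; a; b; c; d)` (rows): multilinearity of the
determinant (`a = ∑ a_i e_i`, `Matrix.det_updateRow_sum`-type lemmas, `AlternatingMap.map_sum`; or expand both
sides by `Matrix.det_apply` and `Finset.sum_comm`). -/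
def EpdStmt : Prop := ∀ u a b c d : Fin 5 → ℝ,
  (ctr u fun i j k l => a i * b j * c k * d l) = (Matrix.of ![u, a, b, c, d]).det

/-- EVA.  For skew `A, B` on `Fin 5`:
`∑ eps e_0 i j k l A_ij B_kl = 4 ∑_p (A_{pr p} B_{ps p} + A_{ps p} B_{pr p})` (indices shifted by `Fin.succ`).
Proof: `eps (Pi.single 0 1) i j k l` vanishes if an index is `0` or two are equal, and it is the sign of
the permutation otherwise (`Matrix.det_succ_row_zero` repeatedly; the values can be obtained by casting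
from integer matrices and `decide`), then expand the sums with `Fin.sum_univ_succ` and use the
skewness (`ring`/`linarith`); or reduce first with the antisymmetries EPS of Stmts.lean. -/
def EvaStmt : Prop := ∀ A B : Fin 5 → Fin 5 → ℝ, (∀ i j, A i j = - A j i) → (∀ i j, B i j = - B j i) →
  (ctr (Pi.single 0 1) fun i j k l => A i j * B k l) =
    4 * ∑ p, (A (pr p).1.succ (pr p).2.succ * B (ps p).1.succ (ps p).2.succ
      + A (ps p).1.succ (ps p).2.succ * B (pr p).1.succ (pr p).2.succ)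

/-- EMX.  The frame matrix.  `G x x x = 1` (`IsCyl.radial`), `G x x (F a) = ⟪x, F a⟫/|x|² = 0`, so
`Emᵀ * gm (G x) * Em = 1`; hence `Em` is invertible, `(gm (G x))⁻¹ = Em * Emᵀ`,
`det Em ^ 2 * det (gm (G x)) = 1`, so `|det Em| * sd (G x) = 1`; and row `0` of `Em⁻¹ = Emᵀ * gm (G x)` is
`j ↦ G x x (eb j) = x_j / |x|²`.  Last item: every vector `v` is `∑_m (G x v (e_m)) • e_m`. -/
def EmxStmt : Prop := ∀ (G : E5 → Bil E5) (x : E5) (F : Fin 4 → E5), IsCyl G → x ∈ Om (Fin 5) →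
  IsAF G x F →
    (Em x F)ᵀ * gm (G x) * Em x F = 1 ∧ Em x F * (Em x F)⁻¹ = 1 ∧ (Em x F)⁻¹ * Em x F = 1 ∧
    (Em x F)⁻¹ = (Em x F)ᵀ * gm (G x) ∧ (gm (G x))⁻¹ = Em x F * (Em x F)ᵀ ∧
    |(Em x F).det| * sd (G x) = 1 ∧ (∀ j, (Em x F)⁻¹ 0 j = x j / ‖x‖ ^ 2) ∧
    ∀ v : E5, v = ∑ m, (G x v (ef x F m)) • ef x F m

/-- EPT (uses EPD, EMX).  Naturality of `eps`: with `E = Em x F`,
`∑ eps x a b c d E_aα E_bβ E_cγ E_dδ = det E * eps e_0 α β γ δ` (by EPD the left side is the determinant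
with rows `x = E e_0`, `E e_α`, ..., and this matrix is `(rows e_0, e_α, ...) * Eᵀ`), and
`|x|^{-2} ∑ eps x i j k l θ_αi θ_βj θ_γk θ_δl = (det E)⁻¹ eps e_0 α β γ δ`, `θ = E⁻¹` (row `0` of `θ` is
`x/|x|²`, and the matrix with rows `θ_0, θ_α, ...` is `(rows e_0, e_α, ...) * θ`). -/
def EptStmt : Prop := ∀ (G : E5 → Bil E5) (x : E5) (F : Fin 4 → E5), IsCyl G → x ∈ Om (Fin 5) →
  IsAF G x F → ∀ α β γ δ : Fin 5,
    ((ctr (cf x) fun a b c d => Em x F a α * Em x F b β * Em x F c γ * Em x F d δ) =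
      (Em x F).det * eps (Pi.single 0 1) α β γ δ) ∧
    ((‖x‖ ^ 2)⁻¹ * (ctr (cf x) fun i j k l => (Em x F)⁻¹ α i * (Em x F)⁻¹ β j *
      (Em x F)⁻¹ γ k * (Em x F)⁻¹ δ l) = ((Em x F).det)⁻¹ * eps (Pi.single 0 1) α β γ δ)

/-! ## Part 2: curvature in a frame -/

/-- ACT.  Symmetries of `Kf`: `Pool.Agent.RF.sym`. -/
def ActStmt : Prop := ∀ (G : E5 → Bil E5) (x : E5) (F : Fin 4 → E5), IsCyl G → x ∈ Om (Fin 5) →
  IsACT (Kf G x F)

/-- FRM.  Frames exist: orthonormalise a basis of the orthogonal complement of `x` (`exists_frame` of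
Helper58_RF/Frame for the pullback of `G x` to `E (Fin 4)` by a linear isometry onto `x^⊥`, e.g. from
`stdOrthonormalBasis` of `(ℝ ∙ x)ᗮ`). -/
def FrmStmt : Prop := ∀ (G : E5 → Bil E5) (x : E5), IsCyl G → x ∈ Om (Fin 5) → ∃ F, IsAF G x F

/-- KHF (uses EMX).  (1) `Kh` with an index `0` vanishes (`cyl`: `riem x · · = 0`, `riem · x · = 0`,
`riem · · x = 0`, and `G x (riem ..) x = 0` by `metric_skew`), `Kh` on successors is `Kf`, `Kh` is skew in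
`m n` and in `a b`.  (2) Expansion: with `E = Em x F`, `θ = E⁻¹`: the vector `eb i` is `∑_m θ_mi e_m`
(`e_m = ef x F m`, the columns of `E`), `riem G x (e_m) (e_n) (e_a) = ∑_b Kh m n a b • e_b` (EMX, last item),
so `Rm G x i j = ∑_{m,n} θ_mi θ_nj E R̂_mn E⁻¹` with `(R̂_mn)_ba = Kh m n a b`; and
`Sm G x i j = ∑_{m,n} θ_mi θ_nj E R̂_mn Eᵀ` (`(gm (G x))⁻¹ = E Eᵀ`). -/
def KhfStmt : Prop := ∀ (G : E5 → Bil E5) (x : E5) (F : Fin 4 → E5), IsCyl G → x ∈ Om (Fin 5) →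
  IsAF G x F →
    (∀ m n a b, (m = 0 ∨ n = 0 ∨ a = 0 ∨ b = 0) → Kh G x F m n a b = 0) ∧
    (∀ m n a b : Fin 4, Kh G x F m.succ n.succ a.succ b.succ = Kf G x F m n a b) ∧
    (∀ m n a b, Kh G x F m n a b = - Kh G x F n m a b) ∧
    (∀ m n a b, Kh G x F m n a b = - Kh G x F m n b a) ∧
    (∀ i j, Rm G x i j = ∑ m, ∑ n, ((Em x F)⁻¹ m i * (Em x F)⁻¹ n j) •
      (Em x F * Matrix.of (fun b a => Kh G x F m n a b) * (Em x F)⁻¹)) ∧
    (∀ i j, Sm G x i j = ∑ m, ∑ n, ((Em x F)⁻¹ m i * (Em x F)⁻¹ n j) •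
      (Em x F * Matrix.of (fun b a => Kh G x F m n a b) * (Em x F)ᵀ))

/-- FRA (uses KHF EPT EVA EMX).  `eul G x = sd (G x) * E4 (Kf G x F)`.  Insert KHF into `Pf` and `ctr`; by
EPT the inner sum `Pf (cf x) (E A Eᵀ) (E B Eᵀ)` is `det E * ∑ eps e_0 α β γ δ A_αβ B_γδ`, and the outer one gives
the factor `(det E)⁻¹`, so `eul = sd * ∑_{mnrs} eps e_0 m n r s (∑_{αβγδ} eps e_0 α β γ δ Kh_{mnβα} Kh_{rsδγ})`.
EVA for the inner sum (skew in the last two indices; the two signs from `Kh m n β α = - Kh m n α β` cancel)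
and then EVA for the outer one, term by term:
`= sd * 16 * ∑_{p,q} (K(pr,pr) K(ps,ps) + K(pr,ps) K(ps,pr) + the same with pr, ps exchanged) = sd * E4`. -/
def FraStmt : Prop := ∀ (G : E5 → Bil E5) (x : E5) (F : Fin 4 → E5), IsCyl G → x ∈ Om (Fin 5) →
  IsAF G x F → eul G x = sd (G x) * E4 (Kf G x F)

/-- PFR (uses KHF EPT EVA EMX).  `|pnt G x| = 8 sd (G x) |pont (Kf G x F)|`: by KHF
`tr (R_ij R_kl) = ∑ θ θ θ θ tr (R̂_mn R̂_rs)`, `tr (R̂_mn R̂_rs) = ∑_{a,b} Kh m n a b * Kh r s b a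
= - ∑_{a,b} Kh m n a b * Kh r s a b`; by EPT `pnt = (det E)⁻¹ ∑ eps e_0 m n r s tr (R̂_mn R̂_rs)` and
`|det E|⁻¹ = sd (G x)`; by EVA for each `a, b` (skew matrices `Kh . . a b`) the sum is
`- 8 ∑_{a,b} ∑_p Kh (pr p) a b * Kh (ps p) a b = - 8 pont` (`K 3 1 = - K 1 3`). -/
def PfrStmt : Prop := ∀ (G : E5 → Bil E5) (x : E5) (F : Fin 4 → E5), IsCyl G → x ∈ Om (Fin 5) →
  IsAF G x F → |pnt G x| = 8 * sd (G x) * |pont (Kf G x F)|

/-- CNT.  `pnt G` and `sd` are continuous on `Om` (`chris` is smooth, `riem` is a polynomial in `chris` and its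
first derivatives, Helper36_RF/Chr and Helper83_RF/Curv; `sd`: SDF), and `pnt` is homogeneous of degree `-5`
(`cyl_riem_hom`: `Rm G (c x) i j = c⁻² Rm G x i j`; `eps (cf (c x)) = c eps (cf x)`). -/
def CntStmt : Prop := ∀ (G : E5 → Bil E5), IsCyl G →
  ContinuousOn (pnt G) (Om (Fin 5)) ∧ ContinuousOn (fun x => sd (G x)) (Om (Fin 5)) ∧
  IntegrableOn (fun x => sd (G x)) (slab (Fin 5)) ∧
  ∀ c : ℝ, 0 < c → ∀ x ∈ Om (Fin 5), pnt G (c • x) = (c ^ 5)⁻¹ * pnt G x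

/-- RDK.  The round cylinder `rG x = |x|^{-2} ⟪·,·⟫` in an `IsAF` frame (`round_riem`). -/
def RdkStmt : Prop :=
  ∀ x ∈ Om (Fin 5), ∀ F, IsAF (Pool.Agent.MVS.H38.rG (Fin 5)) x F → ∀ a b c d,
    Kf (Pool.Agent.MVS.H38.rG (Fin 5)) x F a b c d =
      (if b = c then 1 else 0) * (if a = d then 1 else 0) -
        (if a = c then 1 else 0) * (if b = d then 1 else 0)

/-- RDE (uses FRA FRM RDK).  `E4 = 96`, so `eul rG x = 96 sd (rG x)`, and
`∫_{slab} sd (rG x) = vol rg = 8π²/3` (`br3`, `rnd`; or `sd (rG x) = |x|^{-5}` and polar coordinates). -/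
def RdeStmt : Prop :=
  (∀ x ∈ Om (Fin 5), eul (Pool.Agent.MVS.H38.rG (Fin 5)) x =
    96 * sd (Pool.Agent.MVS.H38.rG (Fin 5) x)) ∧
  ∫ x in slab (Fin 5), eul (Pool.Agent.MVS.H38.rG (Fin 5)) x = 256 * Real.pi ^ 2

/-! ## Part 3: integration -/

/-- PLR.  Polar coordinates for functions homogeneous of degree `-5` (the proof of `br3` with `density g`
replaced by a continuous function; `radial_int`). -/
def PlrStmt : Prop := ∀ f : E5 → ℝ, ContinuousOn f (Om (Fin 5)) →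
  (∀ c : ℝ, 0 < c → ∀ x ∈ Om (Fin 5), f (c • x) = (c ^ 5)⁻¹ * f x) →
  IntegrableOn f (slab (Fin 5)) ∧
  ∫ x in slab (Fin 5), f x =
    ∫ x : Metric.sphere (0 : E5) 1, f (x : E5) ∂((volume : Measure E5).toSphere)

/-- CGB (uses CGI of Stmts.lean with `G₁ = rG`, `rG_cyl`, RDE). -/
def CgbStmt : Prop := ∀ G : E5 → Bil E5, IsCyl G →
  IntegrableOn (eul G) (slab (Fin 5)) ∧ ∫ x in slab (Fin 5), eul G x = 256 * Real.pi ^ 2

/-! ## Part 4: algebra (see also `alg1`, `alg2`, `alg3` in Helper92_GBS/ALG.lean) -/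

/-- SG1.  `K ≤ 1` implies `sg K ≤ 1`: `K a b b a = sec4 K e_a e_b ≤ 1` for `a ≠ b`, `= 0` for `a = b`. -/
def Sg1Stmt : Prop := ∀ K, IsACT K → SecUp 1 K → sg K ≤ 1

/-! ## Part 5: bridges -/

open Pool.Agent.SecondKind Pool.Agent.MinVolSphere

/-- `G` is the cylinder metric of `g` -/
def Cyl2 (g : Form 4) (G : E5 → Bil E5) : Prop :=
  IsCyl G ∧ ∀ x v w : Fin 5 → ℝ, Tangent x v → Tangent x w → G (vc x) (vc v) (vc w) = g x v w

/-- BFO.  From a parametrization to the cylinder (all four entries; the proof of `sec_tan` in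
Helper26_MVS/BR2.lean without `par`): for a frame `e` of `comp g ψ` at `y` the vectors
`F a = vc (dψ_y (e a))` form an `IsAF` frame at `vc (ψ y)` and all curvature components agree. -/
def BfoStmt : Prop := ∀ (g : Form 4) (G : E5 → Bil E5), Cyl2 g G →
  ∀ U ψ, IsParam U ψ → ∀ y ∈ U,
    (∀ a b c d : Fin 4 → ℝ, riemV (comp g ψ) y a b c d =
      G (vc (ψ y)) (riem G (vc (ψ y)) (vc (fderiv ℝ ψ y a)) (vc (fderiv ℝ ψ y b))
        (vc (fderiv ℝ ψ y c))) (vc (fderiv ℝ ψ y d))) ∧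
    (∀ a b : Fin 4 → ℝ, ∑ p, ∑ q, a p * b q * comp g ψ y p q =
      G (vc (ψ y)) (vc (fderiv ℝ ψ y a)) (vc (fderiv ℝ ψ y b))) ∧
    (∀ e, IsFrame (comp g ψ) y e → IsAF G (vc (ψ y)) (fun a => vc (fderiv ℝ ψ y (e a))))

/-- BOF (uses BFO, `par`).  From the cylinder to a parametrization: for `x ∈ Om` and an `IsAF` frame `F` at
`x` take `ψ` of PAR at `ξ = x/|x|`, `e a` with `dψ (e a) = |x|⁻¹ F a`; `G ξ = |x|² G x`,
`riem G x = |x|^{-2} riem G ξ` (`cyl_riem_hom`). -/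
def BofStmt : Prop := ∀ (g : Form 4) (G : E5 → Bil E5), Cyl2 g G →
  ∀ x ∈ Om (Fin 5), ∀ F, IsAF G x F → ∃ U ψ y e, IsParam U ψ ∧ y ∈ U ∧
    vc (ψ y) = ‖x‖⁻¹ • x ∧ IsFrame (comp g ψ) y e ∧
    (∀ a b c d, riemV (comp g ψ) y (e a) (e b) (e c) (e d) = Kf G x F a b c d)

/-- SCB (uses BOF).  Multilinearity of `riemV`, `area2` for the vectors `∑ u_a e_a`:
`riemV (∑ u_a e_a) (∑ v_b e_b) (∑ v_c e_c) (∑ u_d e_d) = sec4 (Kf G x F) u v`, `area2 = ar4 u v`. -/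
def ScbStmt : Prop := ∀ (g : Form 4) (G : E5 → Bil E5), Cyl2 g G →
  (SecLeOne g → ∀ x ∈ Om (Fin 5), ∀ F, IsAF G x F → SecUp 1 (Kf G x F)) ∧
  (∀ k, SecGe k g → ∀ x ∈ Om (Fin 5), ∀ F, IsAF G x F → ∀ u v,
    k * ar4 u v ≤ sec4 (Kf G x F) u v) ∧
  (∀ c, ScalGe c g → ∀ x ∈ Om (Fin 5), ∀ F, IsAF G x F → c ≤ 12 * sg (Kf G x F))

/-- PEX (uses BFO BOF PFR CNT FRM).  `IsPont g P` gives `|pnt G x| = 8 sd (G x) P x` on the unit sphere
(BOF, PFR: `pontF` in the frame `e` is `pont (Kf G x F)`), and conversely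
`P x = |pnt G (vc x)| / (8 sd (G (vc x)))` satisfies `IsPont g P` (BFO, PFR) and is continuous on the sphere
(CNT). -/
def PexStmt : Prop := ∀ (g : Form 4) (G : E5 → Bil E5), Cyl2 g G →
  (∃ P, IsPont g P ∧ ContinuousOn P {x | OnSphere x}) ∧
  ∀ P, IsPont g P → ∀ x : Fin 5 → ℝ, OnSphere x → |pnt G (vc x)| = 8 * sd (G (vc x)) * P x

/-- PIN (uses PLR CNT PEX).  `∫_{slab} |pnt G| = 8 * integ g P`: PLR for `|pnt G|`, PEX, `density_eq`. -/
def PinStmt : Prop := ∀ (g : Form 4) (G : E5 → Bil E5), Cyl2 g G →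
  ∀ P, IsPont g P → IntegrableOn (fun x => |pnt G x|) (slab (Fin 5)) ∧
    ∫ x in slab (Fin 5), |pnt G x| = 8 * integ g P

/-- RDO (uses BFO RDK).  The round metric `rg`: `SecGe 1` (`sec_eq` of Helper38_MVS/RND), `ScalGe 12` and
`IsPont rg 0` (BFO with `G = rG`, then RDK in the frame `F`). -/
def RdoStmt : Prop := SecGe 1 Pool.Agent.MVS.H38.rg ∧ ScalGe 12 Pool.Agent.MVS.H38.rg ∧
  IsPont Pool.Agent.MVS.H38.rg (fun _ => 0)

/-! ## Part 6: conclusion -/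

/-- MN1 (uses CGB FRM FRA PFR ACT CNT, `alg1`).  `|K| ≤ 1`: `eul ≤ 96 sd + |pnt|` on the slab. -/
def Mn1Stmt : Prop := ∀ (G : E5 → Bil E5), IsCyl G →
  IntegrableOn (fun x => |pnt G x|) (slab (Fin 5)) →
  (∀ x ∈ Om (Fin 5), ∀ F, IsAF G x F → SecIn (-1) 1 (Kf G x F)) →
  256 * Real.pi ^ 2 ≤ 96 * (∫ x in slab (Fin 5), sd (G x)) + ∫ x in slab (Fin 5), |pnt G x|

/-- MN2 (uses CGB FRM FRA ACT CNT SG1, `alg2`, `alg3`).  (1) `K ≤ 1` and `sg ≥ 3/5`: `sg² + 4(1 - sg)² ≤ 1` for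
`3/5 ≤ sg ≤ 1`.  (2) `-c ≤ K ≤ 1`. -/
def Mn2Stmt : Prop :=
  (∀ (G : E5 → Bil E5), IsCyl G →
    (∀ x ∈ Om (Fin 5), ∀ F, IsAF G x F → SecUp 1 (Kf G x F) ∧ 3 / 5 ≤ sg (Kf G x F)) →
    256 * Real.pi ^ 2 ≤ 96 * (∫ x in slab (Fin 5), sd (G x))) ∧
  (∀ (G : E5 → Bil E5) (c : ℝ), IsCyl G → 0 ≤ c → c ≤ 1 →
    (∀ x ∈ Om (Fin 5), ∀ F, IsAF G x F → SecIn (-c) 1 (Kf G x F)) →
    256 * Real.pi ^ 2 ≤ 96 * max 1 ((8 + 4 * c + 5 * c ^ 2) / 9) *
      (∫ x in slab (Fin 5), sd (G x)))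

/-- FIN (uses MN1 MN2 SCB PIN PEX RDO, `br1`, `br3`, `rnd`).  The final theorem.  (1) is the main
inequality; (2) `K ≤ 1` and `scal ≥ 36/5`; (3) `-c ≤ K ≤ 1`; (4) `24π²/17 ≤ MinVol(S^4) ≤ 8π²/3` ((3) with `c = 1`);
(5) exact values in three classes (upper bound: the round metric, RDO; lower bounds: (1) with `P = 0`, (3) with
`c = 1/5`, (2)). -/
def FinStmt : Prop :=
  (∀ g : Form 4, IsMetric g → AbsSecLeOne g →
    (∃ P, IsPont g P ∧ ContinuousOn P {x | OnSphere x}) ∧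
    ∀ P, IsPont g P → 8 * Real.pi ^ 2 / 3 ≤ vol g + (1 / 12) * integ g P) ∧
  (∀ g : Form 4, IsMetric g → SecLeOne g → ScalGe (36 / 5) g → 8 * Real.pi ^ 2 / 3 ≤ vol g) ∧
  (∀ (g : Form 4) (c : ℝ), IsMetric g → 0 ≤ c → c ≤ 1 → SecLeOne g → SecGe (-c) g →
    8 * Real.pi ^ 2 / 3 ≤ max 1 ((8 + 4 * c + 5 * c ^ 2) / 9) * vol g) ∧
  (24 * Real.pi ^ 2 / 17 ≤ sInf {V : ℝ | ∃ g : Form 4, IsMetric g ∧ AbsSecLeOne g ∧ vol g = V} ∧
    sInf {V : ℝ | ∃ g : Form 4, IsMetric g ∧ AbsSecLeOne g ∧ vol g = V} ≤ 8 * Real.pi ^ 2 / 3) ∧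
  (sInf {V : ℝ | ∃ g : Form 4, IsMetric g ∧ AbsSecLeOne g ∧ IsPont g (fun _ => 0) ∧ vol g = V} =
      8 * Real.pi ^ 2 / 3 ∧
    sInf {V : ℝ | ∃ g : Form 4, IsMetric g ∧ SecLeOne g ∧ SecGe (-(1 / 5)) g ∧ vol g = V} =
      8 * Real.pi ^ 2 / 3 ∧
    sInf {V : ℝ | ∃ g : Form 4, IsMetric g ∧ SecLeOne g ∧ ScalGe (36 / 5) g ∧ vol g = V} =
      8 * Real.pi ^ 2 / 3)

end Pool.Agent.GBS
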