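import Pool.Agent.GBS.Stmts
import Pool.Agent.GBS.StmtsB
import Pool.Agent.Helper92_GBS.ALR

/-!
# GBS, extension block C: the trace-free Ricci tensor (MP_33f2b9_gt)

THEOREM (FN2).  Every smooth metric on `S^4` with `|K| ≤ 1` satisfies
`vol g + (1/12) ∫ |pont| ≥ 8π²/3 + (1/6) ∫ |Ric₀|²`; in particular `vol g ≥ 8π²/3` if
`|pont| ≤ 2 |Ric₀|²` everywhere.

Algebra (PROVED, Helper92_GBS): `alg1rr : E4 K ≤ 96 + 8 |pont K| - 16 ric0 K` for `|K| ≤ 1` (ALG3.lean),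
`alr : ric0 K = (∑ K_abcd²)/4 - E4 K/16` (ALR.lean), `ric0` is defined in ALG2.lean.

RULES as in StmtsB.lean (rows `RNF RCT REX RIN RDZ MN3 FN2` of the table `gbs`, import
`Pool.Agent.GBS.StmtsC`, theorem `Pool.Agent.GBS.HNN.xxx : XxxStmt`).  `XxxStatement` = statements of
Stmts.lean, `XxxStmt` = statements of StmtsB.lean or of this file.
-/

noncomputable section

open scoped ContDiff Topology RealInnerProductSpace
open Set MeasureTheory Matrix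

namespace Pool.Agent.MinVolSphere

open Pool.Agent.SecondKind

/-- the squared norm of the trace-free Ricci tensor in the orthonormal frame `e`:
`∑_{a,b} Ric(e_a,e_b)² - scal²/4` with `Ric(e_a,e_b) = ∑_c R(e_c,e_a,e_b,e_c)` -/
def ric0F (h : Coord 4) (y : Fin 4 → ℝ) (e : Fin 4 → Fin 4 → ℝ) : ℝ :=
  ∑ a, ∑ b, (∑ c, riemV h y (e c) (e a) (e b) (e c)) ^ 2
    - (∑ a, ∑ b, riemV h y (e a) (e b) (e b) (e a)) ^ 2 / 4

/-- `Q` is the squared norm of the trace-free Ricci tensor of `g`, a function on `S^4` -/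
def IsRicz (g : Form 4) (Q : (Fin 5 → ℝ) → ℝ) : Prop :=
  ∀ U ψ, IsParam U ψ → ∀ y ∈ U, ∀ e, IsFrame (comp g ψ) y e → Q (ψ y) = ric0F (comp g ψ) y e

end Pool.Agent.MinVolSphere

namespace Pool.Agent.GBS

open Pool.Agent.RF Pool.Agent.MVS

/-- the squared norm `∑ K_abcd²` of the curvature tensor, without frames:
`- ∑_{ijkl} h_ik h_jl tr (R_ij R_kl)`, `h = g⁻¹` -/
def nr2 (G : E5 → Bil E5) (x : E5) : ℝ :=
  - ∑ i, ∑ j, ∑ k, ∑ l, (gm (G x))⁻¹ i k * (gm (G x))⁻¹ j l * (Rm G x i j * Rm G x k l).trace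

/-- the density of `|Ric₀|²` -/
def rz (G : E5 → Bil E5) (x : E5) : ℝ := sd (G x) * nr2 G x / 4 - eul G x / 16

/-- RNF (uses KHF EMX FRA ACT).  (1) The frame formula for `nr2`: insert
`Rm G x i j = ∑_{m,n} θ_mi θ_nj E R̂_mn E⁻¹`, `θ = E⁻¹`, (KHF), `tr (E A E⁻¹ E B E⁻¹) = tr (A B)`, and
`∑_{i,k} h_ik θ_mi θ_rk = (θ h θᵀ)_mr = δ_mr` (`h = E Eᵀ`, EMX); so `nr2 = - ∑_{m,n} tr (R̂_mn R̂_mn)
= - ∑_{m,n,a,b} Kh m n a b * Kh m n b a = ∑ Kh²`, and `Kh` vanishes if an index is `0`.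
(2) From (1), FRA and `alr` (Helper92_GBS/ALR.lean). -/
def RnfStmt : Prop := ∀ (G : E5 → Bil E5) (x : E5) (F : Fin 4 → E5), IsCyl G → x ∈ Om (Fin 5) →
  IsAF G x F →
    nr2 G x = ∑ a, ∑ b, ∑ c, ∑ d, Kf G x F a b c d ^ 2 ∧
    rz G x = sd (G x) * Pool.Agent.GBS.H92.ric0 (Kf G x F)

/-- RCT (uses CNT FAM SMO SDD, or directly as in the proof of CNT).  Continuity and homogeneity.  For the
constant family `H t = G` (`Fam`), `TData` holds and the entries of `RZ`, `SZ`, `EZ`, `h` are smooth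
(SMO, SDD), at `t = 0` these are `Rm`, `Sm`, `(gm (G x))⁻¹` and `|x|² eul`; or use the continuity of `Rm` from
the proof of CNT and write `eul`, `nr2` as finite sums of products (`(gm (G x))⁻¹` is continuous where the
determinant is not zero).  Homogeneity: `Rm G (c x) i j = c⁻² Rm G x i j` (`cyl_riem_hom`),
`gm (G (c x)) = c⁻² gm (G x)`, so `Sm` and `nr2` are homogeneous of degree `0`, `sd` of degree `-5`
(`sd_smul`), `eul` of degree `-2 - 5 + 1 + 1 = -5`. -/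
def RctStmt : Prop := ∀ (G : E5 → Bil E5), IsCyl G →
  ContinuousOn (rz G) (Om (Fin 5)) ∧
  ∀ c : ℝ, 0 < c → ∀ x ∈ Om (Fin 5), rz G (c • x) = (c ^ 5)⁻¹ * rz G x

open Pool.Agent.SecondKind Pool.Agent.MinVolSphere

/-- REX (uses BFO BOF RNF RCT CNT FRM).  As PEX: `IsRicz g Q` gives `rz G (vc x) = sd (G (vc x)) * Q x` on
the unit sphere (BOF for a frame from FRM, RNF: `ric0F` in the frame `e` is `ric0 (Kf G x F)` by
unfolding), and conversely `Q x = rz G (vc x) / sd (G (vc x))` satisfies `IsRicz g Q` (BFO, RNF) and is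
continuous on the sphere (RCT, CNT, `sd > 0`). -/
def RexStmt : Prop := ∀ (g : Form 4) (G : E5 → Bil E5), Cyl2 g G →
  (∃ Q, IsRicz g Q ∧ ContinuousOn Q {x | OnSphere x}) ∧
  ∀ Q, IsRicz g Q → ∀ x : Fin 5 → ℝ, OnSphere x → rz G (vc x) = sd (G (vc x)) * Q x

/-- RIN (uses PLR RCT REX).  `∫_{slab} rz G = integ g Q`: PLR for `rz G`, REX, `density_eq`; as PIN. -/
def RinStmt : Prop := ∀ (g : Form 4) (G : E5 → Bil E5), Cyl2 g G →
  ∀ Q, IsRicz g Q → IntegrableOn (rz G) (slab (Fin 5)) ∧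
    ∫ x in slab (Fin 5), rz G x = integ g Q

/-- RDZ (uses BFO RDK).  The round metric is Einstein: `IsRicz rg 0` (`ric0F = 36 - 144/4 = 0` in every
frame; as the third item of RDO). -/
def RdzStmt : Prop := IsRicz Pool.Agent.MVS.H38.rg (fun _ => 0)

/-- MN3 (uses CGB FRM FRA PFR ACT CNT RNF, `alg1rr`).  `|K| ≤ 1`: on the slab
`eul = sd * E4 ≤ sd * (96 + 8 |pont| - 16 ric0) = 96 sd + |pnt| - 16 rz`; integrate. -/
def Mn3Stmt : Prop := ∀ (G : E5 → Bil E5), IsCyl G →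
  IntegrableOn (fun x => |pnt G x|) (slab (Fin 5)) → IntegrableOn (rz G) (slab (Fin 5)) →
  (∀ x ∈ Om (Fin 5), ∀ F, IsAF G x F → SecIn (-1) 1 (Kf G x F)) →
  256 * Real.pi ^ 2 + 16 * (∫ x in slab (Fin 5), rz G x) ≤
    96 * (∫ x in slab (Fin 5), sd (G x)) + ∫ x in slab (Fin 5), |pnt G x|

/-- FN2 (uses MN3 MN2 SCB PIN PEX RIN REX RDO RDZ, `br1`, `br3`, `rnd`; the clauses (3)-(6) are the clauses
(2)-(5) of `FinStmt`, proved in row FIN, which may be used as a hypothesis `(fin : FinStmt)`).  The final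
theorem.  (1) The main inequality, `96` times: MN3 with `∫_{slab} sd G = vol g` (`br3`), PIN, RIN.
(2) The class `|pont| ≤ 2 |Ric₀|²`: lower bound from (1), since
`integ g P - 2 integ g Q = integ g (P - 2 Q) ≤ 0` (`density ≥ 0`; integrability: `P = |pnt|/(8 sd)`,
`Q = rz/sd` on the sphere are continuous by PEX and REX (uniqueness on the sphere), or compare the
integrals over the slab: `∫_{slab} |pnt G| ≤ 16 ∫_{slab} rz G` because `|pnt G x| = 8 sd P`, `rz = sd Q` on the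
unit sphere and both are homogeneous of degree `-5`); upper bound: the round metric, `P = Q = 0`
(RDO, RDZ).  `BddBelow`: `0 ≤ vol`. -/
def Fn2Stmt : Prop :=
  (∀ g : Form 4, IsMetric g → AbsSecLeOne g →
    (∃ P, IsPont g P ∧ ContinuousOn P {x | OnSphere x}) ∧
    (∃ Q, IsRicz g Q ∧ ContinuousOn Q {x | OnSphere x}) ∧
    ∀ P Q, IsPont g P → IsRicz g Q →
      8 * Real.pi ^ 2 / 3 + (1 / 6) * integ g Q ≤ vol g + (1 / 12) * integ g P) ∧
  (sInf {V : ℝ | ∃ (g : Form 4) (P Q : (Fin 5 → ℝ) → ℝ), IsMetric g ∧ AbsSecLeOne g ∧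
      IsPont g P ∧ IsRicz g Q ∧ (∀ x, OnSphere x → P x ≤ 2 * Q x) ∧ vol g = V} =
    8 * Real.pi ^ 2 / 3) ∧
  (∀ g : Form 4, IsMetric g → SecLeOne g → ScalGe (36 / 5) g → 8 * Real.pi ^ 2 / 3 ≤ vol g) ∧
  (∀ (g : Form 4) (c : ℝ), IsMetric g → 0 ≤ c → c ≤ 1 → SecLeOne g → SecGe (-c) g →
    8 * Real.pi ^ 2 / 3 ≤ max 1 ((8 + 4 * c + 5 * c ^ 2) / 9) * vol g) ∧
  (24 * Real.pi ^ 2 / 17 ≤ sInf {V : ℝ | ∃ g : Form 4, IsMetric g ∧ AbsSecLeOne g ∧ vol g = V} ∧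
    sInf {V : ℝ | ∃ g : Form 4, IsMetric g ∧ AbsSecLeOne g ∧ vol g = V} ≤ 8 * Real.pi ^ 2 / 3) ∧
  (sInf {V : ℝ | ∃ g : Form 4, IsMetric g ∧ AbsSecLeOne g ∧ IsPont g (fun _ => 0) ∧ vol g = V} =
      8 * Real.pi ^ 2 / 3 ∧
    sInf {V : ℝ | ∃ g : Form 4, IsMetric g ∧ SecLeOne g ∧ SecGe (-(1 / 5)) g ∧ vol g = V} =
      8 * Real.pi ^ 2 / 3 ∧
    sInf {V : ℝ | ∃ g : Form 4, IsMetric g ∧ SecLeOne g ∧ ScalGe (36 / 5) g ∧ vol g = V} =
      8 * Real.pi ^ 2 / 3)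

end Pool.Agent.GBS
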